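import Pool.Agent.Lib.MP_945667_co.H98Upper

namespace Pool.Agent.Variants.MP_945667_co.Order

open Pool.Agent.Lib.MP_945667_co

/-- The order of magnitude of the crossing number of Hanoi graphs with at least four pegs. -/
theorem result (p d : ℕ) (hp : 4 ≤ p) (hd : p < d) :
    ∑ j ∈ Finset.range d, p ^ j * (p - 2) ^ (2 * (d - j)) ≤
        3600 * p ^ 2 * crossingNumber (hanoi p d) ∧
      crossingNumber (hanoi p d) ≤
        16 * p ^ 2 * ∑ j ∈ Finset.range d, p ^ j * (p - 2) ^ (2 * (d - j)) :=
  order hp hd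

end Pool.Agent.Variants.MP_945667_co.Order
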